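import Pool.Agent.Helper78.W3.StC

/-!
# Project W3 (MP_3c9520_nt), module KerO: dimension of the kernel of the hexagon relation
-/

set_option autoImplicit false

namespace Pool.Agent.Helper25.W3

open Pool.Agent.Helper78.W3 Pool.Agent.Helper14.W3
open Pool.Agent.Helper14.CV (Homog EqC act Tl)

private theorem rank_eq (hRmap : S3Rmap) (k : ℕ) (hk : 1 ≤ k) :
    Module.finrank ℂ ↥(antiF3 k) + Module.finrank ℂ ↥(antiO3 k ⊓ LinearMap.ker (Rh k)) =
      Module.finrank ℂ ↥(antiO3 k) := by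
  rw [← hRmap k hk]
  have h3 := LinearMap.finrank_range_add_finrank_ker ((Rh k).domRestrict (antiO3 k))
  have h4 : Module.finrank ℂ ↥(LinearMap.range ((Rh k).domRestrict (antiO3 k)))
      = Module.finrank ℂ ↥((antiO3 k).map (Rh k)) := by
    rw [LinearMap.range_domRestrict]
  have h5 : Module.finrank ℂ ↥(LinearMap.ker ((Rh k).domRestrict (antiO3 k)))
      = Module.finrank ℂ ↥(antiO3 k ⊓ LinearMap.ker (Rh k)) := by
    have h6 : antiO3 k ⊓ LinearMap.ker (Rh k)
        = (LinearMap.ker ((Rh k).domRestrict (antiO3 k))).map (antiO3 k).subtype := by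
      ext x
      simp [Submodule.mem_map, LinearMap.mem_ker, LinearMap.domRestrict_apply, and_comm]
    rw [h6]
    exact (LinearEquiv.finrank_eq (Submodule.equivMapOfInjective _ (antiO3 k).injective_subtype _))
  rw [← h4, ← h5]
  exact h3

private noncomputable def gg (s : ZMod (3 ^ 1)) : ℂ := if s = 0 then 1 else if s = 2 then -1 else 0

private theorem cases3 (s : ZMod (3 ^ 1)) : s = 0 ∨ s = 1 ∨ s = 2 := by
  revert s
  decide

private theorem g0 : gg 0 = 1 := by simp [gg]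

private theorem g1 : gg 1 = 0 := by
  have h1 : (1 : ZMod (3 ^ 1)) ≠ 0 := by decide
  have h2 : (1 : ZMod (3 ^ 1)) ≠ 2 := by decide
  simp only [gg, h1, h2, if_false]

private theorem g2 : gg 2 = -1 := by
  have h1 : (2 : ZMod (3 ^ 1)) ≠ 0 := by decide
  simp only [gg, h1, if_false, if_true]

private theorem gsum (s : ZMod (3 ^ 1)) : gg s + gg (s + 1) + gg (s + 2) = 0 := by
  rcases cases3 s with rfl | rfl | rfl
  · rw [show (0 : ZMod (3 ^ 1)) + 1 = 1 by decide, show (0 : ZMod (3 ^ 1)) + 2 = 2 by decide, g0, g1, g2]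
    ring
  · rw [show (1 : ZMod (3 ^ 1)) + 1 = 2 by decide, show (1 : ZMod (3 ^ 1)) + 2 = 0 by decide, g0, g1, g2]
    ring
  · rw [show (2 : ZMod (3 ^ 1)) + 1 = 0 by decide, show (2 : ZMod (3 ^ 1)) + 2 = 1 by decide, g0, g1, g2]
    ring

private theorem gneg (s : ZMod (3 ^ 1)) : gg (-s - 1) = -gg s := by
  rcases cases3 s with rfl | rfl | rfl
  · rw [show -(0 : ZMod (3 ^ 1)) - 1 = 2 by decide, g0, g2]
  · rw [show -(1 : ZMod (3 ^ 1)) - 1 = 1 by decide, g1, neg_zero]
  · rw [show -(2 : ZMod (3 ^ 1)) - 1 = 0 by decide, g0, g2, neg_neg]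

private theorem three : (3 : ZMod (3 ^ 1)) = 0 := by decide

private theorem inv1 : (1 : ZMod (3 ^ 1))⁻¹ = 1 := by
  have : Fact (Nat.Prime (3 ^ 1)) := ⟨by norm_num⟩
  exact inv_one

private theorem inv2 : (2 : ZMod (3 ^ 1))⁻¹ = 2 := by
  have h : (2 : ZMod (3 ^ 1)) * 2 = 1 := by decide
  have : Fact (Nat.Prime (3 ^ 1)) := ⟨by norm_num⟩
  exact inv_eq_of_mul_eq_one_right h

private theorem mem1 : (fun x y : ZMod (3 ^ 1) => gg (x + y)) ∈ antiF3 1 := by
  intro x y
  have p : (3 : ZMod (3 ^ 1)) ^ (1 - 1) = 1 := by decide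
  have hr : rr x = x - 1 := by
    unfold rr
    rw [three, zero_mul, add_zero, inv1]
    have h2 : (2 : ZMod (3 ^ 1)) = -1 := by decide
    rw [h2]
    ring
  have hs : ss y = y + 1 := by
    unfold ss
    rw [three, zero_mul, add_zero, inv2]
    have h2 : (2 : ZMod (3 ^ 1)) = -1 := by decide
    rw [h2]
    ring
  have ht : -y * (1 + 3 * y)⁻¹ = -y := by
    rw [three, zero_mul, add_zero, inv1, mul_one]
  refine ⟨?_, ?_, ?_, ?_, ?_⟩
  · show gg (x + y) + gg (x + 3 ^ (1 - 1) + y) + gg (x + 2 * 3 ^ (1 - 1) + y) = 0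
    rw [p, mul_one]
    have e1 : x + 1 + y = x + y + 1 := by ring
    have e2 : x + 2 + y = x + y + 2 := by ring
    rw [e1, e2]
    exact gsum _
  · show gg (x + y) + gg (x + (y + 3 ^ (1 - 1))) + gg (x + (y + 2 * 3 ^ (1 - 1))) = 0
    rw [p, mul_one, ← add_assoc, ← add_assoc]
    exact gsum _
  · show gg (y + x) = gg (x + y)
    rw [add_comm]
  · show gg (rr x + ss y) = gg (x + y)
    rw [hr, hs]
    congr 1
    ring
  · show gg (-x - 1 + -y * (1 + 3 * y)⁻¹) = -gg (x + y)
    rw [ht, ← gneg]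
    congr 1
    ring

theorem hKerO (hRmap : S3Rmap) (hDimO : S3DimO) (hDimF : S3DimF) : S3KerO := by
  refine ⟨?_, ?_⟩
  · intro k hk
    have h1 := hDimO k (by omega)
    have h2 := hDimF k hk
    have h3 := rank_eq hRmap k (by omega)
    generalize 3 ^ (k - 1) * (3 ^ (k - 1) + 1) = X at h1 h2 ⊢
    omega
  · have h1 := hDimO 1 le_rfl
    have h3 := rank_eq hRmap 1 le_rfl
    have h4 : 1 ≤ Module.finrank ℂ ↥(antiF3 1) := by
      rw [Submodule.one_le_finrank_iff, Submodule.ne_bot_iff]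
      refine ⟨_, mem1, fun h => ?_⟩
      have h5 := congrFun (congrFun h 0) 0
      simp only [add_zero, Pi.zero_apply] at h5
      rw [g0] at h5
      exact one_ne_zero h5
    norm_num at h1
    omega

end Pool.Agent.Helper25.W3
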